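import Mathlib

set_option autoImplicit false
open scoped Pointwise
open Filter Topology

namespace Pool.Agent.Results.MP_808d7a_gt.GeoMeanAsymptotics

variable {E : Type*} [NormedAddCommGroup E] [InnerProductSpace ℝ E]

/-- The polar of a set. -/
def polarBody (K : Set E) : Set E := {y | ∀ x ∈ K, inner ℝ x y ≤ (1 : ℝ)}

/-- The two sequences: `(A_0, H_0) = (K, T)`, `A_{k+1} = (A_k + H_k)/2`,
`H_{k+1} = ((A_k° + H_k°)/2)°`. -/
def meanSeq (K T : Set E) : ℕ → Set E × Set E
  | 0 => (K, T)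
  | k + 1 => ((1 / 2 : ℝ) • ((meanSeq K T k).1 + (meanSeq K T k).2),
      polarBody ((1 / 2 : ℝ) • (polarBody (meanSeq K T k).1 + polarBody (meanSeq K T k).2)))

/-- `G` is the common Hausdorff limit of the two sequences. -/
def IsGeometricMean (K T G : Set E) : Prop :=
  IsCompact G ∧ G.Nonempty ∧
    Tendsto (fun k => Metric.hausdorffDist (meanSeq K T k).1 G) atTop (𝓝 0) ∧
    Tendsto (fun k => Metric.hausdorffDist (meanSeq K T k).2 G) atTop (𝓝 0)

/-- Origin-symmetric convex bodies. -/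
def IsSymmBody (K : Set E) : Prop :=
  IsCompact K ∧ Convex ℝ K ∧ (interior K).Nonempty ∧ ∀ x ∈ K, -x ∈ K

theorem mem_half_add {A H : Set E} {x : E} :
    x ∈ (1 / 2 : ℝ) • (A + H) ↔ ∃ a ∈ A, ∃ h ∈ H, (1 / 2 : ℝ) • (a + h) = x := by
  constructor
  · rintro ⟨y, ⟨a, ha, h, hh, rfl⟩, rfl⟩
    exact ⟨a, ha, h, hh, rfl⟩
  · rintro ⟨a, ha, h, hh, rfl⟩
    exact ⟨a + h, ⟨a, ha, h, hh, rfl⟩, rfl⟩

theorem polarBody_anti {A B : Set E} (h : A ⊆ B) : polarBody B ⊆ polarBody A :=
  fun _ hy x hx => hy x (h hx)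

theorem subset_polar_polar (A : Set E) : A ⊆ polarBody (polarBody A) := by
  intro x hx y hy
  rw [real_inner_comm]
  exact hy x hx

/-- the working notion: compact convex symmetric, with a ball around zero -/
structure Body (K : Set E) : Prop where
  cpt : IsCompact K
  cvx : Convex ℝ K
  symm : ∀ x ∈ K, -x ∈ K
  ball : ∃ r > 0, Metric.closedBall (0 : E) r ⊆ K

theorem Body.zero_mem {K : Set E} (h : Body K) : (0 : E) ∈ K := by
  obtain ⟨r, hr, hb⟩ := h.ball
  exact hb (by simp [hr.le])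

theorem body_of_isSymmBody {K : Set E} (h : IsSymmBody K) : Body K := by
  obtain ⟨h1, h2, ⟨x, hx⟩, h4⟩ := h
  refine ⟨h1, h2, h4, ?_⟩
  rw [mem_interior_iff_mem_nhds, Metric.mem_nhds_iff] at hx
  obtain ⟨r, hr, hb⟩ := hx
  refine ⟨r / 2, by positivity, ?_⟩
  intro y hy
  have hy' : ‖y‖ ≤ r / 2 := by simpa using hy
  have e1 : x + y ∈ K := hb (by simp [Metric.mem_ball]; linarith)
  have e2 : x - y ∈ K := hb (by simp [Metric.mem_ball]; linarith)
  have e3 := h4 _ e2
  have := h2 e1 e3 (by norm_num : (0:ℝ) ≤ 1/2) (by norm_num : (0:ℝ) ≤ 1/2) (by norm_num)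
  have e : (1/2 : ℝ) • (x + y) + (1/2 : ℝ) • (-(x - y)) = y := by
    module
  rwa [e] at this

theorem isSymmBody_of_body {K : Set E} (h : Body K) : IsSymmBody K := by
  obtain ⟨r, hr, hb⟩ := h.ball
  refine ⟨h.cpt, h.cvx, ⟨0, ?_⟩, h.symm⟩
  rw [mem_interior_iff_mem_nhds, Metric.mem_nhds_iff]
  exact ⟨r, hr, Metric.ball_subset_closedBall.trans hb⟩

theorem Body.smul_mem {K : Set E} (h : Body K) {x : E} (hx : x ∈ K) {c : ℝ} (hc : |c| ≤ 1) :
    c • x ∈ K := by
  have h0 := h.zero_mem
  rcases le_or_gt 0 c with hc0 | hc0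
  · have := h.cvx h0 hx (by rw [abs_of_nonneg hc0] at hc; linarith : 0 ≤ 1 - c) hc0 (by ring)
    simpa using this
  · have := h.cvx h0 (h.symm x hx) (by rw [abs_of_neg hc0] at hc; linarith : 0 ≤ 1 + c)
      (by linarith : 0 ≤ -c) (by ring)
    simpa using this

theorem half_sum_body {A H : Set E} (hA : Body A) (hH : Body H) :
    Body ((1 / 2 : ℝ) • (A + H)) := by
  refine ⟨(hA.cpt.add hH.cpt).smul _, (hA.cvx.add hH.cvx).smul _, ?_, ?_⟩
  · intro x hx
    rw [mem_half_add] at hx ⊢
    obtain ⟨a, ha, h, hh, rfl⟩ := hx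
    exact ⟨-a, hA.symm a ha, -h, hH.symm h hh, by module⟩
  · obtain ⟨r, hr, hb⟩ := hA.ball
    refine ⟨r / 2, by positivity, ?_⟩
    intro y hy
    rw [mem_half_add]
    refine ⟨(2 : ℝ) • y, hb ?_, 0, hH.zero_mem, by simp [smul_smul]⟩
    have : ‖y‖ ≤ r / 2 := by simpa using hy
    simp [norm_smul]; linarith

theorem half_sum_mono {A A' H H' : Set E} (h1 : A ⊆ A') (h2 : H ⊆ H') :
    (1 / 2 : ℝ) • (A + H) ⊆ (1 / 2 : ℝ) • (A' + H') :=
  Set.smul_set_mono (Set.add_subset_add h1 h2)

theorem isClosed_polarBody (K : Set E) : IsClosed (polarBody K) := by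
  have : polarBody K = ⋂ x ∈ K, {y | inner ℝ x y ≤ (1:ℝ)} := by
    ext y; simp [polarBody]
  rw [this]
  refine isClosed_biInter fun x _ => ?_
  exact isClosed_le (by fun_prop) continuous_const

theorem convex_polarBody (K : Set E) : Convex ℝ (polarBody K) := by
  intro y hy z hz a b ha hb hab x hx
  rw [inner_add_right, inner_smul_right, inner_smul_right]
  have h1 := hy x hx
  have h2 := hz x hx
  calc a * inner ℝ x y + b * inner ℝ x z ≤ a * 1 + b * 1 := by gcongr
    _ = 1 := by linarith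

theorem polar_body [FiniteDimensional ℝ E] {K : Set E} (h : Body K) : Body (polarBody K) := by
  refine ⟨?_, convex_polarBody K, ?_, ?_⟩
  · obtain ⟨r, hr, hb⟩ := h.ball
    refine Metric.isCompact_of_isClosed_isBounded (isClosed_polarBody K) ?_
    refine (Metric.isBounded_closedBall (x := (0:E)) (r := 1 / r)).subset ?_
    intro y hy
    rw [mem_closedBall_zero_iff]
    by_cases hy0 : y = 0
    · simp [hy0]; positivity
    have hny : 0 < ‖y‖ := norm_pos_iff.mpr hy0
    have h1 := hy ((r / ‖y‖) • y) (hb (by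
      rw [mem_closedBall_zero_iff, norm_smul, Real.norm_of_nonneg (by positivity)]
      field_simp; exact le_refl _))
    rw [real_inner_smul_left, real_inner_self_eq_norm_sq] at h1
    have : r / ‖y‖ * ‖y‖ ^ 2 = r * ‖y‖ := by field_simp
    rw [this] at h1
    rw [le_div_iff₀ hr]; linarith
  · intro y hy x hx
    have := hy (-x) (h.symm x hx)
    simpa using this
  · obtain ⟨R, hR⟩ := h.cpt.isBounded.subset_closedBall (0 : E)
    refine ⟨1 / (|R| + 1), by positivity, ?_⟩
    intro y hy x hx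
    have h1 : ‖x‖ ≤ |R| + 1 := by
      have := hR hx
      rw [mem_closedBall_zero_iff] at this
      have := le_abs_self R
      linarith
    have h2 : ‖y‖ ≤ 1 / (|R| + 1) := by simpa using hy
    calc inner ℝ x y ≤ ‖x‖ * ‖y‖ := real_inner_le_norm x y
      _ ≤ (|R| + 1) * (1 / (|R| + 1)) := by gcongr
      _ = 1 := by field_simp

theorem bipolar {K : Set E} (hc : IsClosed K) (hv : Convex ℝ K) (h0 : (0 : E) ∈ K) 
    [CompleteSpace E] :
    polarBody (polarBody K) = K := by
  refine Set.Subset.antisymm ?_ (subset_polar_polar K)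
  intro x hx
  by_contra hxK
  obtain ⟨f, u, hfu, hux⟩ := geometric_hahn_banach_closed_point hv hc hxK
  have hu : 0 < u := by have := hfu 0 h0; simpa using this
  obtain ⟨v, rfl⟩ := (InnerProductSpace.toDual ℝ E).surjective f
  have hv' : (1 / u) • v ∈ polarBody K := by
    intro a ha
    have := hfu a ha
    rw [InnerProductSpace.toDual_apply_apply] at this
    rw [inner_smul_right, real_inner_comm]
    rw [div_mul_eq_mul_div, div_le_one hu]
    linarith
  have := hx _ hv'
  rw [real_inner_smul_left] at this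
  rw [InnerProductSpace.toDual_apply_apply] at hux
  rw [div_mul_eq_mul_div, div_le_one hu] at this
  linarith


theorem hm_subset_am {A H : Set E} (hA : Body A) (hH : Body H) [CompleteSpace E] :
    polarBody ((1 / 2 : ℝ) • (polarBody A + polarBody H)) ⊆ (1 / 2 : ℝ) • (A + H) := by
  intro x hx
  by_contra hxK
  have hS := half_sum_body hA hH
  obtain ⟨f, u, hfu, hux⟩ := geometric_hahn_banach_closed_point hS.cvx hS.cpt.isClosed hxK
  obtain ⟨v, rfl⟩ := (InnerProductSpace.toDual ℝ E).surjective f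
  simp only [InnerProductSpace.toDual_apply_apply] at hfu hux
  have hu : 0 < u := by have := hfu 0 hS.zero_mem; simpa using this
  have hv0 : v ≠ 0 := by
    rintro rfl
    simp at hux; linarith
  obtain ⟨a, ha, hamax⟩ := hA.cpt.exists_isMaxOn ⟨0, hA.zero_mem⟩
    (f := fun x => inner ℝ v x) (by fun_prop)
  obtain ⟨h, hh, hhmax⟩ := hH.cpt.exists_isMaxOn ⟨0, hH.zero_mem⟩
    (f := fun x => inner ℝ v x) (by fun_prop)
  have pos : ∀ {B : Set E}, Body B → ∀ b ∈ B, IsMaxOn (fun x => inner ℝ v x) B b →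
      0 < inner ℝ v b := by
    intro B hB b hb hmax
    obtain ⟨r, hr, hball⟩ := hB.ball
    have hvn : 0 < ‖v‖ := norm_pos_iff.mpr hv0
    have h1 : (r / ‖v‖) • v ∈ B := hball (by
      rw [mem_closedBall_zero_iff, norm_smul, Real.norm_of_nonneg (by positivity)]
      field_simp; exact le_refl _)
    have h2 : inner ℝ v ((r / ‖v‖) • v) ≤ inner ℝ v b := hmax h1
    rw [inner_smul_right, real_inner_self_eq_norm_sq] at h2
    have : 0 < r / ‖v‖ * ‖v‖ ^ 2 := by positivity
    linarith
  have ha0 := pos hA a ha hamax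
  have hh0 := pos hH h hh hhmax
  set p := inner ℝ v a with hp
  set q := inner ℝ v h with hq
  have hy : (1 / p) • v ∈ polarBody A := by
    intro b hb
    rw [inner_smul_right, real_inner_comm, div_mul_eq_mul_div, div_le_one ha0, one_mul]
    exact hamax hb
  have hz : (1 / q) • v ∈ polarBody H := by
    intro b hb
    rw [inner_smul_right, real_inner_comm, div_mul_eq_mul_div, div_le_one hh0, one_mul]
    exact hhmax hb
  have h1 := hx ((1 / 2 : ℝ) • ((1 / p) • v + (1 / q) • v)) (mem_half_add.mpr ⟨_, hy, _, hz, rfl⟩)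
  have h2 : inner ℝ v ((1 / 2 : ℝ) • (a + h)) < u := hfu _ (mem_half_add.mpr ⟨a, ha, h, hh, rfl⟩)
  rw [inner_smul_right, inner_add_right, ← hp, ← hq] at h2
  rw [← add_smul, smul_smul, real_inner_smul_left] at h1
  have h3 : (1 / 2 : ℝ) * (1 / p + 1 / q) = (p + q) / (2 * (p * q)) := by
    field_simp; ring
  rw [h3, div_mul_eq_mul_div, div_le_one (by positivity)] at h1
  have h4 : (p + q) / 2 < inner ℝ v x := by linarith
  have h5 : (p + q) * ((p + q) / 2) < 2 * (p * q) := by
    calc (p + q) * ((p + q) / 2) < (p + q) * inner ℝ v x := by gcongr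
      _ ≤ _ := h1
  nlinarith [sq_nonneg (p - q)]

theorem subset_next {A H : Set E} (h : H ⊆ A) :
    H ⊆ polarBody ((1 / 2 : ℝ) • (polarBody A + polarBody H)) := by
  intro x hx w hw
  obtain ⟨y, hy, z, hz, rfl⟩ := mem_half_add.mp hw
  rw [real_inner_smul_left, inner_add_left, real_inner_comm, real_inner_comm x z]
  have h1 := hy x (h hx)
  have h2 := hz x hx
  linarith

theorem next_body [FiniteDimensional ℝ E] {A H : Set E} (hA : Body A) (hH : Body H) :
    Body (polarBody ((1 / 2 : ℝ) • (polarBody A + polarBody H))) :=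
  polar_body (half_sum_body (polar_body hA) (polar_body hH))

theorem half_sum_subset {A H : Set E} (hA : Body A) (h : H ⊆ A) :
    (1 / 2 : ℝ) • (A + H) ⊆ A := by
  intro x hx
  obtain ⟨a, ha, b, hb, rfl⟩ := mem_half_add.mp hx
  rw [smul_add]
  exact hA.cvx ha (h hb) (by norm_num) (by norm_num) (by norm_num)

theorem meanSeq_body [FiniteDimensional ℝ E] {K T : Set E} (hK : Body K) (hT : Body T) (k : ℕ) :
    Body (meanSeq K T k).1 ∧ Body (meanSeq K T k).2 := by
  induction k with
  | zero => exact ⟨hK, hT⟩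
  | succ k ih => exact ⟨half_sum_body ih.1 ih.2, next_body ih.1 ih.2⟩

theorem meanSeq_snd_subset_fst [FiniteDimensional ℝ E] {K T : Set E} (hK : Body K) (hT : Body T)
    (k : ℕ) : (meanSeq K T (k + 1)).2 ⊆ (meanSeq K T (k + 1)).1 :=
  hm_subset_am (meanSeq_body hK hT k).1 (meanSeq_body hK hT k).2

theorem meanSeq_fst_anti [FiniteDimensional ℝ E] {K T : Set E} (hK : Body K) (hT : Body T)
    (k : ℕ) : (meanSeq K T (k + 2)).1 ⊆ (meanSeq K T (k + 1)).1 :=
  half_sum_subset (meanSeq_body hK hT (k + 1)).1 (meanSeq_snd_subset_fst hK hT k)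

theorem meanSeq_snd_mono [FiniteDimensional ℝ E] {K T : Set E} (hK : Body K) (hT : Body T)
    (k : ℕ) : (meanSeq K T (k + 1)).2 ⊆ (meanSeq K T (k + 2)).2 :=
  subset_next (meanSeq_snd_subset_fst hK hT k)

theorem exists_scale {A H : Set E} (hA : Body A) (hH : Body H) :
    ∃ C : ℝ, 0 ≤ C ∧ ∀ a ∈ A, (1 + C)⁻¹ • a ∈ H := by
  obtain ⟨r, hr, hb⟩ := hH.ball
  obtain ⟨R, hR⟩ := hA.cpt.isBounded.subset_closedBall (0 : E)
  refine ⟨|R| / r, by positivity, ?_⟩
  intro a ha
  apply hb
  have h1 := hR ha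
  rw [mem_closedBall_zero_iff] at h1 ⊢
  rw [norm_smul, norm_inv, Real.norm_of_nonneg (by positivity)]
  rw [inv_mul_le_iff₀ (by positivity)]
  have := le_abs_self R
  have e : (1 + |R| / r) * r = r + |R| := by field_simp
  rw [e]; linarith

theorem meanSeq_close [FiniteDimensional ℝ E] {K T : Set E} (hK : Body K) (hT : Body T) :
    ∃ C : ℝ, 0 ≤ C ∧ ∀ k : ℕ, ∀ a ∈ (meanSeq K T (k + 1)).1,
      (1 + C / 2 ^ k)⁻¹ • a ∈ (meanSeq K T (k + 1)).2 := by
  obtain ⟨C, hC, h0⟩ := exists_scale (meanSeq_body hK hT 1).1 (meanSeq_body hK hT 1).2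
  refine ⟨C, hC, ?_⟩
  intro k
  induction k with
  | zero => intro a ha; simpa using h0 a ha
  | succ k ih =>
    intro x hx
    apply meanSeq_snd_mono hK hT k
    obtain ⟨a, ha, h, hh, rfl⟩ := mem_half_add.mp hx
    have h1 := ih a ha
    set ρ : ℝ := 1 + C / 2 ^ k with hρ
    have hρ1 : 0 < ρ := by positivity
    have h2 : (1 + C / 2 ^ (k + 1) : ℝ) = (ρ + 1) / 2 := by
      rw [hρ]; field_simp; ring
    rw [h2]
    have h3 := (meanSeq_body hK hT (k + 1)).2.cvx h1 hh (a := ρ / (ρ + 1)) (b := 1 / (ρ + 1))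
      (by positivity) (by positivity) (by field_simp)
    convert h3 using 1
    rw [smul_smul, smul_smul, smul_add]
    congr 1 <;> congr 1 <;> field_simp


theorem meanSeq_fst_anti_le [FiniteDimensional ℝ E] {K T : Set E} (hK : Body K) (hT : Body T)
    {j k : ℕ} (h : j ≤ k) : (meanSeq K T (k + 1)).1 ⊆ (meanSeq K T (j + 1)).1 := by
  induction h with
  | refl => exact subset_rfl
  | step _ ih => exact (meanSeq_fst_anti hK hT _).trans ih

theorem meanSeq_snd_mono_le [FiniteDimensional ℝ E] {K T : Set E} (hK : Body K) (hT : Body T)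
    {j k : ℕ} (h : j ≤ k) : (meanSeq K T (j + 1)).2 ⊆ (meanSeq K T (k + 1)).2 := by
  induction h with
  | refl => exact subset_rfl
  | step _ ih => exact ih.trans (meanSeq_snd_mono hK hT _)

theorem meanSeq_snd_subset_fst' [FiniteDimensional ℝ E] {K T : Set E} (hK : Body K) (hT : Body T)
    (j k : ℕ) : (meanSeq K T (j + 1)).2 ⊆ (meanSeq K T (k + 1)).1 := by
  rcases le_total j k with h | h
  · exact (meanSeq_snd_mono_le hK hT h).trans (meanSeq_snd_subset_fst hK hT k)
  · exact (meanSeq_snd_subset_fst hK hT j).trans (meanSeq_fst_anti_le hK hT h)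

/-- The geometric mean exists for all bodies. -/
theorem exists_geometricMean [FiniteDimensional ℝ E] {K T : Set E} (hK : Body K) (hT : Body T) :
    ∃ G : Set E, IsGeometricMean K T G ∧ Body G ∧
      (∀ k, G ⊆ (meanSeq K T (k + 1)).1) ∧ (∀ k, (meanSeq K T (k + 1)).2 ⊆ G) := by
  obtain ⟨C, hC, hclose⟩ := meanSeq_close hK hT
  have hb := meanSeq_body hK hT
  set G : Set E := ⋂ k : ℕ, (meanSeq K T (k + 1)).1 with hG
  have hGA : ∀ k, G ⊆ (meanSeq K T (k + 1)).1 := fun k => Set.iInter_subset _ k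
  have hHG : ∀ k, (meanSeq K T (k + 1)).2 ⊆ G :=
    fun k => Set.subset_iInter fun j => meanSeq_snd_subset_fst' hK hT k j
  have hGbody : Body G := by
    refine ⟨?_, ?_, ?_, ?_⟩
    · refine (hb 1).1.cpt.of_isClosed_subset ?_ (hGA 0)
      exact isClosed_iInter fun k => (hb (k + 1)).1.cpt.isClosed
    · exact convex_iInter fun k => (hb (k + 1)).1.cvx
    · intro x hx
      rw [hG, Set.mem_iInter] at hx ⊢
      exact fun k => (hb (k + 1)).1.symm x (hx k)
    · obtain ⟨r, hr, h⟩ := (hb 1).2.ball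
      exact ⟨r, hr, h.trans (hHG 0)⟩
  obtain ⟨R, hR⟩ := (hb 1).1.cpt.isBounded.subset_closedBall (0 : E)
  have hdist : ∀ k : ℕ, ∀ a ∈ (meanSeq K T (k + 1)).1,
      dist a ((1 + C / 2 ^ k)⁻¹ • a) ≤ |R| * (C / 2 ^ k) := by
    intro k a ha
    have h1 : ‖a‖ ≤ |R| := by
      have := hR (meanSeq_fst_anti_le hK hT (Nat.zero_le k) ha)
      rw [mem_closedBall_zero_iff] at this
      exact this.trans (le_abs_self R)
    have hc : 0 ≤ C / 2 ^ k := by positivity
    rw [dist_eq_norm]
    have : a - (1 + C / 2 ^ k)⁻¹ • a = (1 - (1 + C / 2 ^ k)⁻¹) • a := by module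
    rw [this, norm_smul]
    have h2 : (1 - (1 + C / 2 ^ k)⁻¹ : ℝ) = (C / 2 ^ k) * (1 + C / 2 ^ k)⁻¹ := by
      field_simp; ring
    have h3 : (1 + C / 2 ^ k)⁻¹ ≤ (1 : ℝ) := inv_le_one_of_one_le₀ (by linarith)
    have h4 : (0 : ℝ) ≤ (1 + C / 2 ^ k)⁻¹ := by positivity
    rw [h2, Real.norm_of_nonneg (by positivity)]
    calc (C / 2 ^ k) * (1 + C / 2 ^ k)⁻¹ * ‖a‖ ≤ (C / 2 ^ k) * 1 * |R| := by gcongr
      _ = _ := by ring
  have hlim : Tendsto (fun k : ℕ => |R| * (C / 2 ^ k)) atTop (𝓝 0) := by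
    have : Tendsto (fun k : ℕ => |R| * (C * (1 / 2 : ℝ) ^ k)) atTop (𝓝 (|R| * (C * 0))) :=
      ((tendsto_pow_atTop_nhds_zero_of_lt_one (by norm_num) (by norm_num)).const_mul C).const_mul _
    simpa [div_eq_mul_inv] using this
  refine ⟨G, ⟨hGbody.cpt, ⟨0, hGbody.zero_mem⟩, ?_, ?_⟩, hGbody, hGA, hHG⟩
  · rw [← tendsto_add_atTop_iff_nat 1]
    refine squeeze_zero (fun _ => Metric.hausdorffDist_nonneg) (fun k => ?_) hlim
    refine Metric.hausdorffDist_le_of_mem_dist (by positivity) ?_ ?_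
    · intro a ha
      exact ⟨_, hHG k (hclose k a ha), hdist k a ha⟩
    · intro g hg
      exact ⟨g, hGA k hg, by simp; positivity⟩
  · rw [← tendsto_add_atTop_iff_nat 1]
    refine squeeze_zero (fun _ => Metric.hausdorffDist_nonneg) (fun k => ?_) hlim
    refine Metric.hausdorffDist_le_of_mem_dist (by positivity) ?_ ?_
    · intro h hh
      exact ⟨h, hHG k hh, by simp; positivity⟩
    · intro g hg
      exact ⟨_, hclose k g (hGA k hg), hdist k g (hGA k hg)⟩

/-- The geometric mean is unique. -/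
theorem geometricMean_unique [FiniteDimensional ℝ E] {K T G G' : Set E} (hK : Body K)
    (hT : Body T) (h : IsGeometricMean K T G) (h' : IsGeometricMean K T G') : G = G' := by
  have hb := meanSeq_body hK hT
  have key : Metric.hausdorffDist G G' = 0 := by
    have h1 : Tendsto (fun k => Metric.hausdorffDist (meanSeq K T k).1 G +
        Metric.hausdorffDist (meanSeq K T k).1 G') atTop (𝓝 (0 + 0)) := h.2.2.1.add h'.2.2.1
    rw [add_zero] at h1
    refine le_antisymm (ge_of_tendsto' h1 fun k => ?_) Metric.hausdorffDist_nonneg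
    have := Metric.hausdorffDist_triangle (s := G) (t := (meanSeq K T k).1) (u := G')
      (Metric.hausdorffEDist_ne_top_of_nonempty_of_bounded h.2.1 ⟨0, (hb k).1.zero_mem⟩
        h.1.isBounded (hb k).1.cpt.isBounded)
    rw [Metric.hausdorffDist_comm (s := G) (t := (meanSeq K T k).1)] at this
    exact this
  have := (Metric.hausdorffDist_zero_iff_closure_eq_closure
    (Metric.hausdorffEDist_ne_top_of_nonempty_of_bounded h.2.1 h'.2.1 h.1.isBounded
      h'.1.isBounded)).mp key
  rwa [h.1.isClosed.closure_eq, h'.1.isClosed.closure_eq] at this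


/-- a preserved relation: `A ⊆ Q`, `H ⊆ c • Q°` -/
def Good (c : ℝ) (A H : Set E) : Prop :=
  ∃ Q : Set E, A ⊆ Q ∧ ∀ a ∈ Q, ∀ h ∈ H, inner ℝ a h ≤ c

theorem Good.next {c : ℝ} (hc : 0 < c) {A H : Set E} (h : Good c A H) :
    Good c ((1 / 2 : ℝ) • (A + H)) (polarBody ((1 / 2 : ℝ) • (polarBody A + polarBody H))) := by
  obtain ⟨Q, hAQ, hQ⟩ := h
  refine ⟨{x | ∃ a ∈ Q, ∃ b ∈ polarBody Q, (1 / 2 : ℝ) • (a + c • b) = x}, ?_, ?_⟩
  · intro x hx
    obtain ⟨a, ha, h, hh, rfl⟩ := mem_half_add.mp hx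
    refine ⟨a, hAQ ha, c⁻¹ • h, ?_, ?_⟩
    · intro a' ha'
      rw [inner_smul_right, inv_mul_le_iff₀ hc, mul_one]
      exact hQ a' ha' h hh
    · rw [smul_smul, mul_inv_cancel₀ hc.ne', one_smul]
  · rintro x ⟨a, ha, b, hb, rfl⟩ h hh
    have hb' : b ∈ polarBody A := polarBody_anti hAQ hb
    have ha' : c⁻¹ • a ∈ polarBody H := by
      intro h' hh'
      rw [inner_smul_right, inv_mul_le_iff₀ hc, mul_one, real_inner_comm]
      exact hQ a ha h' hh'
    have h1 := hh _ (mem_half_add.mpr ⟨b, hb', _, ha', rfl⟩)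
    have e : (1 / 2 : ℝ) • (a + c • b) = c • ((1 / 2 : ℝ) • (b + c⁻¹ • a)) := by
      rw [smul_smul, smul_add, smul_add, smul_smul, smul_smul]
      have : c * (1 / 2) * c⁻¹ = 1 / 2 := by field_simp
      rw [this, add_comm, mul_comm (1 / 2 : ℝ) c]
    rw [e, real_inner_smul_left]
    calc c * inner ℝ ((1 / 2 : ℝ) • (b + c⁻¹ • a)) h ≤ c * 1 := by gcongr
      _ = c := mul_one c

theorem Good.iterate {c : ℝ} (hc : 0 < c) {K T : Set E} {m : ℕ}
    (h : Good c (meanSeq K T m).1 (meanSeq K T m).2) {k : ℕ} (hk : m ≤ k) :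
    Good c (meanSeq K T k).1 (meanSeq K T k).2 := by
  induction hk with
  | refl => exact h
  | step _ ih => exact ih.next hc

section Box

/-- The coordinate box with half side lengths `R i`. -/
def box {n : ℕ} (R : Fin n → ℝ) : Set (EuclideanSpace ℝ (Fin n)) := {x | ∀ i, |x i| ≤ R i}

/-- Projection to the first `n` coordinates. -/
noncomputable def dropLast {n : ℕ} (x : EuclideanSpace ℝ (Fin (n + 1))) :
    EuclideanSpace ℝ (Fin n) := WithLp.toLp 2 fun i => x i.castSucc

/-- Adjoin a last coordinate. -/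
noncomputable def addLast {n : ℕ} (x : EuclideanSpace ℝ (Fin n)) (s : ℝ) :
    EuclideanSpace ℝ (Fin (n + 1)) := WithLp.toLp 2 (Fin.snoc (α := fun _ => ℝ) (fun i => x i) s)

@[simp] theorem dropLast_apply {n : ℕ} (x : EuclideanSpace ℝ (Fin (n + 1))) (i : Fin n) :
    dropLast x i = x i.castSucc := rfl

@[simp] theorem addLast_castSucc {n : ℕ} (x : EuclideanSpace ℝ (Fin n)) (s : ℝ) (i : Fin n) :
    addLast x s i.castSucc = x i := by simp [addLast]

@[simp] theorem addLast_last {n : ℕ} (x : EuclideanSpace ℝ (Fin n)) (s : ℝ) :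
    addLast x s (Fin.last n) = s := by simp [addLast]

theorem inner_addLast {n : ℕ} (x : EuclideanSpace ℝ (Fin (n + 1))) (y : EuclideanSpace ℝ (Fin n))
    (s : ℝ) : inner ℝ x (addLast y s) = inner ℝ (dropLast x) y + x (Fin.last n) * s := by
  simp only [PiLp.inner_apply, Fin.sum_univ_castSucc, addLast_castSucc, addLast_last,
    dropLast_apply, RCLike.inner_apply, conj_trivial]
  ring

theorem addLast_dropLast {n : ℕ} (x : EuclideanSpace ℝ (Fin (n + 1))) :
    addLast (dropLast x) (x (Fin.last n)) = x := by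
  ext i
  refine Fin.lastCases ?_ (fun i => ?_) i <;> simp

theorem half_addLast {n : ℕ} (y z : EuclideanSpace ℝ (Fin n)) (s t : ℝ) :
    (1 / 2 : ℝ) • (addLast y s + addLast z t) = addLast ((1 / 2 : ℝ) • (y + z)) ((s + t) / 2) := by
  ext i
  refine Fin.lastCases ?_ (fun i => ?_) i
  · simp; ring
  · simp

theorem dropLast_half {n : ℕ} (x y : EuclideanSpace ℝ (Fin (n + 1))) :
    dropLast ((1 / 2 : ℝ) • (x + y)) = (1 / 2 : ℝ) • (dropLast x + dropLast y) := by
  ext i; simp

/-- The arithmetic-harmonic iteration of a pair `(L, 1/L)`. -/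
noncomputable def al (L : ℝ) : ℕ → ℝ
  | 0 => L
  | k + 1 => (al L k + (al L k)⁻¹) / 2

theorem al_ge_one {L : ℝ} (hL : 1 ≤ L) (k : ℕ) : 1 ≤ al L k := by
  induction k with
  | zero => exact hL
  | succ k ih =>
    have h0 : 0 < al L k := by linarith
    simp only [al]
    rw [le_div_iff₀ (by norm_num)]
    have : 0 ≤ (al L k - 1) ^ 2 / al L k := by positivity
    have e : (al L k - 1) ^ 2 / al L k = al L k + (al L k)⁻¹ - 2 := by field_simp; ring
    linarith

theorem al_le {L : ℝ} (hL : 1 ≤ L) (k : ℕ) : al L k ≤ L / 2 ^ k + 1 := by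
  induction k with
  | zero => simp [al]
  | succ k ih =>
    have h1 := al_ge_one hL k
    have h2 : (al L k)⁻¹ ≤ 1 := inv_le_one_of_one_le₀ h1
    simp only [al]
    have : L / 2 ^ (k + 1) = (L / 2 ^ k) / 2 := by rw [pow_succ]; field_simp
    rw [this]
    linarith

variable {n : ℕ} (R : Fin n → ℝ) (L : ℝ)

theorem box_body {n : ℕ} {R : Fin n → ℝ} (hR : ∀ i, 0 < R i) : Body (box R) := by
  have hcl : IsClosed (box R) := by
    have : box R = ⋂ i, {x : EuclideanSpace ℝ (Fin n) | |x i| ≤ R i} := by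
      ext x; simp [box]
    rw [this]
    exact isClosed_iInter fun i => isClosed_le (by fun_prop) continuous_const
  refine ⟨?_, ?_, ?_, ?_⟩
  · refine Metric.isCompact_of_isClosed_isBounded hcl ?_
    refine (Metric.isBounded_closedBall (x := (0 : EuclideanSpace ℝ (Fin n)))
      (r := √(∑ i, (R i) ^ 2))).subset ?_
    intro x hx
    rw [mem_closedBall_zero_iff, EuclideanSpace.norm_eq]
    refine Real.sqrt_le_sqrt (Finset.sum_le_sum fun i _ => ?_)
    have := hx i
    rw [Real.norm_eq_abs]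
    gcongr
  · intro x hx y hy a b ha hb hab i
    have h1 := hx i
    have h2 := hy i
    simp only [PiLp.add_apply, PiLp.smul_apply, smul_eq_mul]
    calc |a * x i + b * y i| ≤ |a * x i| + |b * y i| := abs_add_le _ _
      _ = a * |x i| + b * |y i| := by rw [abs_mul, abs_mul, abs_of_nonneg ha, abs_of_nonneg hb]
      _ ≤ a * R i + b * R i := by gcongr
      _ = R i := by rw [← add_mul, hab, one_mul]
  · intro x hx i
    simpa using hx i
  · rcases isEmpty_or_nonempty (Fin n) with h | h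
    · exact ⟨1, one_pos, fun x _ i => (h.false i).elim⟩
    · obtain ⟨i0, hi0⟩ := Finite.exists_min R
      refine ⟨R i0, hR i0, fun x hx i => ?_⟩
      rw [mem_closedBall_zero_iff] at hx
      have := PiLp.norm_apply_le x i
      rw [Real.norm_eq_abs] at this
      exact this.trans (hx.trans (hi0 i))


/-- extended side lengths -/
noncomputable def snocR {n : ℕ} (R : Fin n → ℝ) (L : ℝ) : Fin (n + 1) → ℝ :=
  Fin.snoc (α := fun _ => ℝ) R L

theorem snoc_box_subset {n : ℕ} (R : Fin n → ℝ) (L : ℝ) (hL : 1 ≤ L) (k : ℕ) :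
    (∀ a ∈ (meanSeq (box (snocR R L)) (box fun i => (snocR R L i)⁻¹) k).1,
      dropLast a ∈ (meanSeq (box R) (box fun i => (R i)⁻¹) k).1 ∧ |a (Fin.last n)| ≤ al L k) ∧
    (∀ a ∈ (meanSeq (box (snocR R L)) (box fun i => (snocR R L i)⁻¹) k).2,
      dropLast a ∈ (meanSeq (box R) (box fun i => (R i)⁻¹) k).2 ∧
        |a (Fin.last n)| ≤ (al L k)⁻¹) := by
  induction k with
  | zero =>
    refine ⟨fun a ha => ⟨fun i => ?_, ?_⟩, fun a ha => ⟨fun i => ?_, ?_⟩⟩
    · have := ha i.castSucc
      simpa [snocR] using this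
    · have := ha (Fin.last n)
      simpa [snocR, al] using this
    · have := ha i.castSucc
      simpa [snocR] using this
    · have := ha (Fin.last n)
      simpa [snocR, al] using this
  | succ k ih =>
    obtain ⟨ih1, ih2⟩ := ih
    have hal := al_ge_one hL k
    have hal0 : 0 < al L k := by linarith
    refine ⟨?_, ?_⟩
    · intro x hx
      obtain ⟨a, ha, h, hh, rfl⟩ := mem_half_add.mp hx
      refine ⟨?_, ?_⟩
      · rw [dropLast_half]
        exact mem_half_add.mpr ⟨_, (ih1 a ha).1, _, (ih2 h hh).1, rfl⟩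
      · simp only [PiLp.smul_apply, PiLp.add_apply, smul_eq_mul, al]
        rw [abs_mul, abs_of_pos (by norm_num : (0:ℝ) < 1 / 2)]
        have := abs_add_le (a (Fin.last n)) (h (Fin.last n))
        have h1 := (ih1 a ha).2
        have h2 := (ih2 h hh).2
        linarith
    · intro x hx
      refine ⟨?_, ?_⟩
      · intro w hw
        obtain ⟨y, hy, z, hz, rfl⟩ := mem_half_add.mp hw
        have hy' : addLast y 0 ∈ polarBody
            (meanSeq (box (snocR R L)) (box fun i => (snocR R L i)⁻¹) k).1 := by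
          intro a ha
          rw [inner_addLast, mul_zero, add_zero]
          exact hy _ (ih1 a ha).1
        have hz' : addLast z 0 ∈ polarBody
            (meanSeq (box (snocR R L)) (box fun i => (snocR R L i)⁻¹) k).2 := by
          intro a ha
          rw [inner_addLast, mul_zero, add_zero]
          exact hz _ (ih2 a ha).1
        have := hx _ (mem_half_add.mpr ⟨_, hy', _, hz', rfl⟩)
        rw [half_addLast, real_inner_comm, inner_addLast] at this
        simpa [real_inner_comm] using this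
      · have key : ∀ e : ℝ, |e| = 1 → e * x (Fin.last n) ≤ (al L (k + 1))⁻¹ := by
          intro e he
          have hy' : addLast (0 : EuclideanSpace ℝ (Fin n)) (e * (al L k)⁻¹) ∈ polarBody
              (meanSeq (box (snocR R L)) (box fun i => (snocR R L i)⁻¹) k).1 := by
            intro a ha
            rw [inner_addLast, inner_zero_right, zero_add]
            calc a (Fin.last n) * (e * (al L k)⁻¹) ≤ |a (Fin.last n) * (e * (al L k)⁻¹)| :=
                  le_abs_self _
              _ = |a (Fin.last n)| * (al L k)⁻¹ := by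
                  rw [abs_mul, abs_mul, he, one_mul, abs_of_pos (inv_pos.mpr hal0)]
              _ ≤ al L k * (al L k)⁻¹ := by
                  gcongr
                  exact (ih1 a ha).2
              _ = 1 := mul_inv_cancel₀ hal0.ne'
          have hz' : addLast (0 : EuclideanSpace ℝ (Fin n)) (e * al L k) ∈ polarBody
              (meanSeq (box (snocR R L)) (box fun i => (snocR R L i)⁻¹) k).2 := by
            intro a ha
            rw [inner_addLast, inner_zero_right, zero_add]
            calc a (Fin.last n) * (e * al L k) ≤ |a (Fin.last n) * (e * al L k)| :=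
                  le_abs_self _
              _ = |a (Fin.last n)| * al L k := by
                  rw [abs_mul, abs_mul, he, one_mul, abs_of_pos hal0]
              _ ≤ (al L k)⁻¹ * al L k := by
                  gcongr
                  exact (ih2 a ha).2
              _ = 1 := inv_mul_cancel₀ hal0.ne'
          have := hx _ (mem_half_add.mpr ⟨_, hy', _, hz', rfl⟩)
          rw [half_addLast, real_inner_comm, inner_addLast] at this
          simp only [add_zero, smul_zero, inner_zero_right, zero_add] at this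
          have hpos : 0 < al L (k + 1) := by have := al_ge_one hL (k + 1); linarith
          rw [← one_div, le_div_iff₀ hpos]
          have e2 : e * x (Fin.last n) * al L (k + 1)
              = x (Fin.last n) * ((e * (al L k)⁻¹ + e * al L k) / 2) := by
            simp only [al]; ring
          rw [e2]; exact this
        rw [abs_le]
        have h1 := key 1 (by simp)
        have h2 := key (-1) (by simp)
        constructor <;> linarith

/-- the auxiliary sets `D_0 = {0}`, `D_{k+1} = (A_k° + D_k)/2` -/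
def auxD (K T : Set E) : ℕ → Set E
  | 0 => {0}
  | k + 1 => (1 / 2 : ℝ) • (polarBody (meanSeq K T k).1 + auxD K T k)

theorem auxD_polar {n : ℕ} (R : Fin n → ℝ) (L : ℝ) (hL : 1 ≤ L) (k : ℕ) :
    ∀ d ∈ auxD (box R) (box fun i => (R i)⁻¹) k, ∀ s : ℝ, |s| ≤ L / 2 ^ k →
      addLast d s ∈ polarBody (meanSeq (box (snocR R L)) (box fun i => (snocR R L i)⁻¹) k).2 := by
  induction k with
  | zero =>
    intro d hd s hs x hx
    have hd' : d = 0 := hd
    subst hd'
    have h1 := ((snoc_box_subset R L hL 0).2 x hx).2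
    simp only [al] at h1
    rw [inner_addLast, inner_zero_right, zero_add]
    calc x (Fin.last n) * s ≤ |x (Fin.last n) * s| := le_abs_self _
      _ = |x (Fin.last n)| * |s| := abs_mul _ _
      _ ≤ L⁻¹ * (L / 2 ^ 0) := by gcongr
      _ = 1 := by field_simp; 
  | succ k ih =>
    intro d hd s hs
    obtain ⟨y, hy, z, hz, rfl⟩ := mem_half_add.mp hd
    apply subset_polar_polar
    have hy' : addLast y 0 ∈ polarBody
        (meanSeq (box (snocR R L)) (box fun i => (snocR R L i)⁻¹) k).1 := by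
      intro a ha
      rw [inner_addLast, mul_zero, add_zero]
      exact hy _ ((snoc_box_subset R L hL k).1 a ha).1
    have hz' := ih z hz (2 * s) (by
      rw [abs_mul, abs_of_pos (by norm_num : (0:ℝ) < 2)]
      have : L / 2 ^ (k + 1) = L / 2 ^ k / 2 := by rw [pow_succ]; field_simp
      rw [this] at hs; linarith)
    refine mem_half_add.mpr ⟨_, hy', _, hz', ?_⟩
    rw [half_addLast]
    congr 1; ring

theorem ball_subset_auxD {K T : Set E} {μ : ℝ} (hμ : 0 < μ) {j0 : ℕ}
    (h : ∀ j ≥ j0, (meanSeq K T j).1 ⊆ Metric.closedBall 0 μ) (i : ℕ) :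
    ∀ x : E, ‖x‖ ≤ (1 - 1 / 2 ^ i) * μ⁻¹ → x ∈ auxD K T (j0 + i) := by
  induction i with
  | zero =>
    intro x hx
    have hx0 : x = 0 := by simpa using hx
    subst hx0
    have : ∀ k, (0 : E) ∈ auxD K T k := by
      intro k
      induction k with
      | zero => exact rfl
      | succ k ih => exact mem_half_add.mpr ⟨0, fun x _ => by simp, 0, ih, by simp⟩
    exact this _
  | succ i ih =>
    intro x hx
    have hpow : (1 : ℝ) ≤ 2 ^ i := one_le_pow₀ (by norm_num)
    set c : ℝ := 1 - 1 / 2 ^ i with hc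
    have hc0 : 0 ≤ c := by
      rw [hc, sub_nonneg, div_le_one (by positivity)]; exact hpow
    have hc1 : (1 - 1 / 2 ^ (i + 1) : ℝ) = (1 + c) / 2 := by
      rw [hc]; field_simp; ring
    rw [hc1] at hx
    have e1 : x = (1 / 2 : ℝ) • ((2 / (1 + c)) • x + (2 * c / (1 + c)) • x) := by
      rw [← add_smul, smul_smul]
      have : (1 / 2 : ℝ) * (2 / (1 + c) + 2 * c / (1 + c)) = 1 := by field_simp
      rw [this, one_smul]
    rw [e1]
    refine mem_half_add.mpr ⟨_, ?_, _, ih _ ?_, rfl⟩
    · intro a ha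
      have h1 := h (j0 + i) (by omega) ha
      rw [mem_closedBall_zero_iff] at h1
      calc inner ℝ a ((2 / (1 + c)) • x) ≤ ‖a‖ * ‖(2 / (1 + c)) • x‖ := real_inner_le_norm _ _
        _ = ‖a‖ * ((2 / (1 + c)) * ‖x‖) := by
            rw [norm_smul, Real.norm_of_nonneg (by positivity)]
        _ ≤ μ * ((2 / (1 + c)) * ((1 + c) / 2 * μ⁻¹)) := by gcongr
        _ = 1 := by field_simp
    · rw [norm_smul, Real.norm_of_nonneg (by positivity)]
      calc 2 * c / (1 + c) * ‖x‖ ≤ 2 * c / (1 + c) * ((1 + c) / 2 * μ⁻¹) := by gcongr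
        _ = c * μ⁻¹ := by field_simp

theorem box_main (n : ℕ) : ∀ μ : ℝ, 1 < μ → ∃ R : Fin n → ℝ, (∀ i, 0 < R i) ∧
    ∃ j0 : ℕ, ∀ j ≥ j0, (meanSeq (box R) (box fun i => (R i)⁻¹) j).1 ⊆
      Metric.closedBall 0 μ := by
  induction n with
  | zero =>
    intro μ hμ
    refine ⟨fun _ => 1, fun _ => one_pos, 0, fun j _ x _ => ?_⟩
    have : x = 0 := Subsingleton.elim _ _
    subst this
    simp; linarith
  | succ n ih =>
    intro μ hμ
    set ν : ℝ := √μ with hν
    have hν1 : 1 < ν := by rw [hν]; exact Real.lt_sqrt_of_sq_lt (by simpa using hμ)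
    have hν0 : 0 < ν := by linarith
    obtain ⟨R, hR, j0, hj0⟩ := ih ν hν1
    -- choose `i`
    obtain ⟨i, hi⟩ : ∃ i : ℕ, ν⁻¹ ≤ 1 - 1 / 2 ^ i := by
      obtain ⟨i, hi⟩ := exists_pow_lt_of_lt_one (x := 1 - ν⁻¹) (y := (1 / 2 : ℝ))
        (by rw [sub_pos]; exact inv_lt_one_of_one_lt₀ hν1) (by norm_num)
      refine ⟨i, ?_⟩
      have : (1 / 2 : ℝ) ^ i = 1 / 2 ^ i := by rw [one_div_pow]
      linarith
    set m := j0 + i with hm
    -- choose `L`
    set L : ℝ := 2 ^ m / (ν - 1) + 1 with hL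
    have hL1 : 1 ≤ L := by
      have : 0 < (2 : ℝ) ^ m / (ν - 1) := by
        have : 0 < ν - 1 := by linarith
        positivity
      linarith
    have hL0 : 0 < L := by linarith
    have hLν : L / 2 ^ m + 1 ≤ ν * (L / 2 ^ m) := by
      have h1 : 0 < ν - 1 := by linarith
      have h2 : (2 : ℝ) ^ m / (ν - 1) ≤ L := by rw [hL]; linarith
      have h3 : (2 : ℝ) ^ m ≤ L * (ν - 1) := by rwa [div_le_iff₀ h1] at h2
      have h4 : 1 ≤ L / 2 ^ m * (ν - 1) := by
        rw [div_mul_eq_mul_div, le_div_iff₀ (by positivity)]; linarith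
      linarith
    refine ⟨snocR R L, ?_, ?_⟩
    · intro j
      refine Fin.lastCases ?_ (fun j => ?_) j
      · simpa [snocR] using hL0
      · simpa [snocR] using hR j
    have hRpos : ∀ j, 0 < snocR R L j := by
      intro j
      refine Fin.lastCases ?_ (fun j => ?_) j
      · simpa [snocR] using hL0
      · simpa [snocR] using hR j
    have hK := box_body hRpos
    have hT := box_body (R := fun i => (snocR R L i)⁻¹) fun i => inv_pos.mpr (hRpos i)
    have hgood : Good (ν ^ 3) (meanSeq (box (snocR R L)) (box fun i => (snocR R L i)⁻¹) m).1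
        (meanSeq (box (snocR R L)) (box fun i => (snocR R L i)⁻¹) m).2 := by
      refine ⟨{x | ‖dropLast x‖ ≤ ν ∧ |x (Fin.last n)| ≤ al L m}, ?_, ?_⟩
      · intro a ha
        have := (snoc_box_subset R L hL1 m).1 a ha
        refine ⟨?_, this.2⟩
        have h1 := hj0 m (by omega) this.1
        rwa [mem_closedBall_zero_iff] at h1
      · rintro a ⟨ha1, ha2⟩ h hh
        have hd : (ν ^ 3)⁻¹ • dropLast a ∈ auxD (box R) (box fun i => (R i)⁻¹) m := by
          apply ball_subset_auxD hν0 hj0 i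
          rw [norm_smul, Real.norm_of_nonneg (by positivity)]
          calc (ν ^ 3)⁻¹ * ‖dropLast a‖ ≤ (ν ^ 3)⁻¹ * ν := by gcongr
            _ = ν⁻¹ * ν⁻¹ := by field_simp
            _ ≤ (1 - 1 / 2 ^ i) * ν⁻¹ := by gcongr
        have hs : |(ν ^ 3)⁻¹ * a (Fin.last n)| ≤ L / 2 ^ m := by
          rw [abs_mul, abs_of_pos (by positivity : (0:ℝ) < (ν ^ 3)⁻¹),
            inv_mul_le_iff₀ (by positivity)]
          calc |a (Fin.last n)| ≤ al L m := ha2
            _ ≤ L / 2 ^ m + 1 := al_le hL1 m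
            _ ≤ ν * (L / 2 ^ m) := hLν
            _ ≤ ν ^ 3 * (L / 2 ^ m) := by
                have : ν ≤ ν ^ 3 := le_self_pow₀ hν1.le (by norm_num)
                gcongr
        have h1 := auxD_polar R L hL1 m _ hd _ hs h hh
        rw [inner_addLast, inner_smul_right] at h1
        have h2 : inner ℝ h a = inner ℝ (dropLast h) (dropLast a)
            + h (Fin.last n) * a (Fin.last n) := by
          conv_lhs => rw [← addLast_dropLast a]
          rw [inner_addLast]
        rw [real_inner_comm, h2]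
        have h3 : (ν ^ 3)⁻¹ * (inner ℝ (dropLast h) (dropLast a)
            + h (Fin.last n) * a (Fin.last n)) ≤ 1 := by
          calc _ = (ν ^ 3)⁻¹ * inner ℝ (dropLast h) (dropLast a)
              + h (Fin.last n) * ((ν ^ 3)⁻¹ * a (Fin.last n)) := by ring
            _ ≤ 1 := h1
        rwa [inv_mul_le_iff₀ (by positivity), mul_one] at h3
    obtain ⟨C, hC, hclose⟩ := meanSeq_close hK hT
    obtain ⟨k0, hk0⟩ : ∃ k0 : ℕ, ∀ k ≥ k0, 1 + C / 2 ^ k ≤ ν := by
      have hlim : Tendsto (fun k : ℕ => 1 + C / 2 ^ k) atTop (𝓝 1) := by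
        have : Tendsto (fun k : ℕ => 1 + C * (1 / 2 : ℝ) ^ k) atTop (𝓝 (1 + C * 0)) :=
          ((tendsto_pow_atTop_nhds_zero_of_lt_one (by norm_num) (by norm_num)).const_mul C).const_add 1
        simpa [div_eq_mul_inv] using this
      have := (hlim.eventually_le_const hν1)
      exact eventually_atTop.mp this
    refine ⟨max m k0 + 1, fun j hj a ha => ?_⟩
    obtain ⟨k, rfl⟩ : ∃ k, j = k + 1 := ⟨j - 1, by omega⟩
    have hkm : m ≤ k + 1 := by have := le_max_left m k0; omega
    have hkk : k0 ≤ k := by have := le_max_right m k0; omega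
    obtain ⟨Q, hQ1, hQ2⟩ := hgood.iterate (by positivity) hkm
    have h1 := hQ2 a (hQ1 ha) _ (hclose k a ha)
    rw [inner_smul_right, real_inner_self_eq_norm_sq] at h1
    have hρ := hk0 k hkk
    have hρ0 : 0 < 1 + C / 2 ^ k := by positivity
    rw [inv_mul_le_iff₀ hρ0] at h1
    rw [mem_closedBall_zero_iff]
    have h2 : ‖a‖ ^ 2 ≤ μ ^ 2 := by
      calc ‖a‖ ^ 2 ≤ (1 + C / 2 ^ k) * ν ^ 3 := h1
        _ ≤ ν * ν ^ 3 := by gcongr
        _ = (ν ^ 2) ^ 2 := by ring
        _ = μ ^ 2 := by rw [hν, Real.sq_sqrt (by linarith)]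
    exact (sq_le_sq₀ (norm_nonneg a) (by linarith)).mp h2


theorem volume_box {n : ℕ} (R : Fin n → ℝ) (hR : ∀ i, 0 < R i) :
    (MeasureTheory.volume (box R)).toReal = ∏ i, (2 * R i) := by
  have h1 : (@WithLp.toLp 2 (Fin n → ℝ)) ⁻¹' (box R) = Set.Icc (fun i => -R i) R := by
    ext x
    simp only [box, Set.mem_preimage, Set.mem_ofPred_eq, Set.mem_Icc, Pi.le_def]
    constructor
    · intro h; exact ⟨fun i => (abs_le.mp (h i)).1, fun i => (abs_le.mp (h i)).2⟩
    · rintro ⟨h1, h2⟩ i; exact abs_le.mpr ⟨h1 i, h2 i⟩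
  have h2 := (PiLp.volume_preserving_toLp (Fin n)).measure_preimage
    (s := box R) (box_body hR).cpt.measurableSet.nullMeasurableSet
  rw [← h2, h1, Real.volume_Icc_pi_toReal]
  · congr 1; ext i; ring
  · intro i; have := hR i; simp only; linarith

end Box

/-- The set of all quotients `|G(K,T)| / √(|K| |T|)` in dimension `n`. -/
def ratios (n : ℕ) : Set ℝ :=
  {r | ∃ K T G : Set (EuclideanSpace ℝ (Fin n)), IsSymmBody K ∧ IsSymmBody T ∧
    IsGeometricMean K T G ∧
    r = (MeasureTheory.volume G).toReal /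
      √((MeasureTheory.volume K).toReal * (MeasureTheory.volume T).toReal)}

/-- The constant `g_n`, the infimum of these quotients. -/
noncomputable def gConst (n : ℕ) : ℝ := sInf (ratios n)

theorem gConst_le (n : ℕ) :
    gConst n ≤ (MeasureTheory.volume
      (Metric.closedBall (0 : EuclideanSpace ℝ (Fin n)) 1)).toReal / 2 ^ n := by
  have hbdd : BddBelow (ratios n) := ⟨0, by
    rintro r ⟨K, T, G, -, -, -, rfl⟩
    positivity⟩
  set v := (MeasureTheory.volume
      (Metric.closedBall (0 : EuclideanSpace ℝ (Fin n)) 1)).toReal with hv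
  have key : ∀ μ : ℝ, 1 < μ → gConst n ≤ μ ^ n * (v / 2 ^ n) := by
    intro μ hμ
    obtain ⟨R, hR, j0, hj⟩ := box_main n μ hμ
    have hK := box_body hR
    have hT := box_body (R := fun i => (R i)⁻¹) fun i => inv_pos.mpr (hR i)
    obtain ⟨G, hG, hGb, hGA, -⟩ := exists_geometricMean hK hT
    have hsub : G ⊆ Metric.closedBall 0 μ := (hGA j0).trans (hj _ (by omega))
    have hmem : (MeasureTheory.volume G).toReal /
        √((MeasureTheory.volume (box R)).toReal *
          (MeasureTheory.volume (box fun i => (R i)⁻¹)).toReal) ∈ ratios n :=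
      ⟨_, _, G, isSymmBody_of_body hK, isSymmBody_of_body hT, hG, rfl⟩
    refine (csInf_le hbdd hmem).trans ?_
    rw [volume_box R hR, volume_box _ (fun i => inv_pos.mpr (hR i)), ← Finset.prod_mul_distrib]
    have hp : ∏ i, (2 * R i * (2 * (R i)⁻¹)) = ((2 : ℝ) ^ n) ^ 2 := by
      have : ∀ i, 2 * R i * (2 * (R i)⁻¹) = (4 : ℝ) := by
        intro i; have := (hR i).ne'; field_simp; norm_num
      simp only [this, Finset.prod_const, Finset.card_univ, Fintype.card_fin]
      rw [← pow_mul, mul_comm n 2, pow_mul]; norm_num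
    rw [hp, Real.sqrt_sq (by positivity)]
    have hvol : (MeasureTheory.volume G).toReal ≤ μ ^ n * v := by
      have h1 : MeasureTheory.volume G ≤ MeasureTheory.volume
          (Metric.closedBall (0 : EuclideanSpace ℝ (Fin n)) μ) :=
        MeasureTheory.measure_mono hsub
      have h2 : MeasureTheory.volume (Metric.closedBall (0 : EuclideanSpace ℝ (Fin n)) μ) =
          ENNReal.ofReal (μ ^ n) * MeasureTheory.volume
            (Metric.closedBall (0 : EuclideanSpace ℝ (Fin n)) 1) := by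
        have := MeasureTheory.Measure.addHaar_closedBall' (MeasureTheory.volume)
          (0 : EuclideanSpace ℝ (Fin n)) (by linarith : 0 ≤ μ)
        simpa using this
      have h3 := ENNReal.toReal_mono (by
        rw [h2]
        exact ENNReal.mul_ne_top ENNReal.ofReal_ne_top
          (isCompact_closedBall _ _).measure_lt_top.ne) h1
      rw [h2, ENNReal.toReal_mul, ENNReal.toReal_ofReal (by positivity)] at h3
      exact h3
    calc (MeasureTheory.volume G).toReal / 2 ^ n ≤ (μ ^ n * v) / 2 ^ n := by gcongr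
      _ = _ := by ring
  have hlim : Tendsto (fun μ : ℝ => μ ^ n * (v / 2 ^ n)) (𝓝[>] 1) (𝓝 (1 ^ n * (v / 2 ^ n))) := by
    have : Continuous fun μ : ℝ => μ ^ n * (v / 2 ^ n) := by fun_prop
    exact (this.tendsto 1).mono_left nhdsWithin_le_nhds
  rw [one_pow, one_mul] at hlim
  refine ge_of_tendsto hlim ?_
  filter_upwards [self_mem_nhdsWithin] with μ hμ using key μ hμ

theorem gamma_lower {s : ℝ} (hs : 0 < s) : s ^ s * Real.exp (-s) ≤ Real.Gamma (s + 1) := by
  rw [Real.Gamma_eq_integral (by linarith)]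
  simp only [add_sub_cancel_right]
  have hint : MeasureTheory.IntegrableOn (fun x : ℝ => Real.exp (-x) * x ^ s) (Set.Ioi 0) := by
    have := Real.GammaIntegral_convergent (s := s + 1) (by linarith)
    simpa using this
  have h1 : ∫ x in Set.Ioi s, Real.exp (-x) * x ^ s ≤
      ∫ x in Set.Ioi (0 : ℝ), Real.exp (-x) * x ^ s := by
    refine MeasureTheory.setIntegral_mono_set hint ?_ ?_
    · refine (MeasureTheory.ae_restrict_iff' measurableSet_Ioi).mpr (Eventually.of_forall ?_)
      intro x hx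
      have : (0 : ℝ) < x := hx
      simp only [Pi.zero_apply]
      positivity
    · exact (Set.Ioi_subset_Ioi hs.le).eventuallyLE
  have h2 : ∫ x in Set.Ioi s, s ^ s * Real.exp (-x) ≤
      ∫ x in Set.Ioi s, Real.exp (-x) * x ^ s := by
    refine MeasureTheory.setIntegral_mono_on ?_ ?_ measurableSet_Ioi ?_
    · exact (integrableOn_exp_neg_Ioi s).const_mul _
    · exact hint.mono_set (Set.Ioi_subset_Ioi hs.le)
    · intro x hx
      rw [mul_comm]
      have hx' : s < x := hx
      gcongr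
  rw [MeasureTheory.integral_const_mul, integral_exp_neg_Ioi] at h2
  linarith

theorem ball_bound (n : ℕ) (hn : 1 ≤ n) :
    (MeasureTheory.volume (Metric.closedBall (0 : EuclideanSpace ℝ (Fin n)) 1)).toReal / 2 ^ n ≤
      (√(Real.pi * Real.exp 1 / 2) / √n) ^ n := by
  have : Nonempty (Fin n) := ⟨⟨0, hn⟩⟩
  have hn0 : (0 : ℝ) < n := by exact_mod_cast hn
  rw [EuclideanSpace.volume_closedBall]
  simp only [ENNReal.ofReal_one, one_pow, one_mul, Fintype.card_fin]
  have hG := gamma_lower (s := (n : ℝ) / 2) (by positivity)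
  have hG0 : 0 < Real.Gamma ((n : ℝ) / 2 + 1) := Real.Gamma_pos_of_pos (by positivity)
  rw [ENNReal.toReal_ofReal (by positivity)]
  have e1 : ((n : ℝ) / 2) ^ ((n : ℝ) / 2) * Real.exp (-((n : ℝ) / 2)) =
      (√((n : ℝ) / 2) / √(Real.exp 1)) ^ n := by
    rw [div_pow, div_eq_mul_inv (√((n : ℝ) / 2) ^ n)]
    congr 1
    · rw [Real.sqrt_eq_rpow, ← Real.rpow_natCast, ← Real.rpow_mul (by positivity)]
      congr 1; ring
    · rw [Real.sqrt_eq_rpow, ← Real.exp_mul, ← Real.exp_nat_mul, ← Real.exp_neg]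
      congr 1; ring
  rw [e1] at hG
  have hpos : 0 < (√((n : ℝ) / 2) / √(Real.exp 1)) ^ n := by
    have := Real.exp_pos 1
    positivity
  calc √Real.pi ^ n / Real.Gamma ((n : ℝ) / 2 + 1) / 2 ^ n
      ≤ √Real.pi ^ n / (√((n : ℝ) / 2) / √(Real.exp 1)) ^ n / 2 ^ n := by gcongr
    _ = (√Real.pi / (√((n : ℝ) / 2) / √(Real.exp 1)) / 2) ^ n := by
        simp only [div_pow]
    _ = (√(Real.pi * Real.exp 1 / 2) / √n) ^ n := by
        congr 1
        have h2 : √((n : ℝ) / 2) = √n / √2 := Real.sqrt_div hn0.le 2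
        have h3 : √(Real.pi * Real.exp 1 / 2) = √Real.pi * √(Real.exp 1) / √2 := by
          rw [Real.sqrt_div (by positivity), Real.sqrt_mul (by positivity)]
        rw [h2, h3]
        have h4 : 0 < √(n : ℝ) := Real.sqrt_pos.mpr hn0
        have h5 : 0 < √(Real.exp 1) := Real.sqrt_pos.mpr (Real.exp_pos 1)
        have h6 : √(2 : ℝ) * √2 = 2 := Real.mul_self_sqrt (by norm_num)
        have h7 : 0 < √(2 : ℝ) := by positivity
        field_simp
        nlinarith

/-- Sanity check: the geometric mean exists and is unique for origin-symmetric bodies. -/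
theorem existsUnique_geometricMean {n : ℕ} (K T : Set (EuclideanSpace ℝ (Fin n)))
    (hK : IsSymmBody K) (hT : IsSymmBody T) : ∃! G, IsGeometricMean K T G := by
  obtain ⟨G, hG, -⟩ := exists_geometricMean (body_of_isSymmBody hK) (body_of_isSymmBody hT)
  exact ⟨G, hG, fun G' hG' => geometricMean_unique (body_of_isSymmBody hK)
    (body_of_isSymmBody hT) hG' hG⟩

/-- Sanity check: `gConst n` is the largest admissible constant. -/
theorem gConst_isGreatest (n : ℕ) :
    IsGreatest {g : ℝ | ∀ K T G : Set (EuclideanSpace ℝ (Fin n)), IsSymmBody K → IsSymmBody T →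
      IsGeometricMean K T G →
      g * √((MeasureTheory.volume K).toReal * (MeasureTheory.volume T).toReal) ≤
        (MeasureTheory.volume G).toReal} (gConst n) := by
  have hpos : ∀ K : Set (EuclideanSpace ℝ (Fin n)), IsSymmBody K →
      0 < (MeasureTheory.volume K).toReal := by
    intro K hK
    refine ENNReal.toReal_pos ?_ hK.1.measure_lt_top.ne
    exact (MeasureTheory.Measure.measure_pos_of_nonempty_interior _ hK.2.2.1).ne'
  constructor
  · intro K T G hK hT hG
    have h1 := hpos K hK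
    have h2 := hpos T hT
    have h3 : 0 < √((MeasureTheory.volume K).toReal * (MeasureTheory.volume T).toReal) :=
      Real.sqrt_pos.mpr (mul_pos h1 h2)
    rw [← le_div_iff₀ h3]
    exact csInf_le ⟨0, by rintro r ⟨K, T, G, -, -, -, rfl⟩; positivity⟩
      ⟨K, T, G, hK, hT, hG, rfl⟩
  · intro g hg
    have hne : (ratios n).Nonempty := by
      have hb : Body (box (n := n) fun _ => 1) := box_body fun _ => one_pos
      obtain ⟨G, hG, -⟩ := exists_geometricMean hb hb
      exact ⟨_, _, _, G, isSymmBody_of_body hb, isSymmBody_of_body hb, hG, rfl⟩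
    refine le_csInf hne ?_
    rintro r ⟨K, T, G, hK, hT, hG, rfl⟩
    have h3 : 0 < √((MeasureTheory.volume K).toReal * (MeasureTheory.volume T).toReal) :=
      Real.sqrt_pos.mpr (mul_pos (hpos K hK) (hpos T hT))
    rw [le_div_iff₀ h3]
    exact hg K T G hK hT hG

/-- Main result: `g_n ≤ |B_2^n| / 2^n ≤ (√(πe/2)/√n)^n`, so no bound `g_n ≥ c^n` holds. -/
theorem result :
    (∀ n : ℕ, 1 ≤ n →
      gConst n ≤ (MeasureTheory.volume
        (Metric.closedBall (0 : EuclideanSpace ℝ (Fin n)) 1)).toReal / 2 ^ n ∧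
      gConst n ≤ (√(Real.pi * Real.exp 1 / 2) / √n) ^ n) ∧
    ¬ ∃ c : ℝ, 0 < c ∧ ∀ n : ℕ, 1 ≤ n → c ^ n ≤ gConst n := by
  refine ⟨fun n hn => ⟨gConst_le n, (gConst_le n).trans (ball_bound n hn)⟩, ?_⟩
  rintro ⟨c, hc, h⟩
  set a : ℝ := √(Real.pi * Real.exp 1 / 2) with ha
  obtain ⟨n, hn⟩ := exists_nat_gt ((a / c) ^ 2)
  have ha0 : 0 ≤ a := Real.sqrt_nonneg _
  have hn0 : (0 : ℝ) < n := lt_of_le_of_lt (by positivity) hn
  have hn1 : 1 ≤ n := by exact_mod_cast hn0
  have h1 := (h n hn1).trans ((gConst_le n).trans (ball_bound n hn1))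
  have h2 : a / √n < c := by
    rw [div_lt_iff₀ (Real.sqrt_pos.mpr hn0)]
    have h3 : a / c < √n := by
      rw [Real.lt_sqrt (by positivity)]
      exact hn
    rw [div_lt_iff₀ hc] at h3
    linarith
  have h4 : (a / √n) ^ n < c ^ n := pow_lt_pow_left₀ h2 (by positivity) (by omega)
  linarith

end Pool.Agent.Results.MP_808d7a_gt.GeoMeanAsymptotics
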